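import Pool.Agent.NH83.Poly

set_option autoImplicit false

open Metric Complex

namespace Pool.Agent.NH83

variable {H : Type} [NormedAddCommGroup H] [InnerProductSpace ℂ H]

/-- A `C`-Lipschitz retraction of the sets with at most `n` points onto the sets with at most
`n - 1` points does not exist in an infinite-dimensional complex Hilbert space if
`(C + 1) π / n < 1 / 2`. -/
theorem no_retraction (e : ℕ → H) (he : Orthonormal ℂ e) (n : ℕ) (hn : 2 ≤ n) (C : ℝ)
    (hC : 0 ≤ C) (hCn : (C + 1) * (Real.pi / n) < 1 / 2) (r : Finset H → Finset H)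
    (h1 : ∀ s : Finset H, s.Nonempty → s.card ≤ n → (r s).Nonempty ∧ (r s).card ≤ n - 1)
    (h2 : ∀ s : Finset H, s.Nonempty → s.card ≤ n - 1 → r s = s)
    (h3 : ∀ s t : Finset H, s.Nonempty → s.card ≤ n → t.Nonempty → t.card ≤ n →
      hausdorffDist ((r s : Finset H) : Set H) ((r t : Finset H) : Set H)
        ≤ C * hausdorffDist ((s : Finset H) : Set H) ((t : Finset H) : Set H)) : False := by
  classical
  have hn0 : 0 < n := by omega
  have hnR : (0 : ℝ) < n := by exact_mod_cast hn0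
  set ω : ℂ := exp (2 * Real.pi * I / n) with hωdef
  have hω : IsPrimitiveRoot ω n := Complex.isPrimitiveRoot_exp n hn0.ne'
  have hω1 : ‖ω‖ = 1 := hω.norm'_eq_one hn0.ne'
  have h1ω : ‖1 - ω‖ ≤ 2 * (Real.pi / n) := by
    have h := Real.norm_exp_I_mul_ofReal_sub_one_le (x := 2 * (Real.pi / n))
    rw [norm_sub_rev]
    have e1 : exp (I * ((2 * (Real.pi / n) : ℝ) : ℂ)) = ω := by
      rw [hωdef]
      congr 1
      push_cast
      ring
    rw [e1, Real.norm_of_nonneg (by positivity)] at h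
    exact h
  -- the minimal distance of a power of `ω` to `1`
  obtain ⟨μ, hμ0, hμ⟩ : ∃ μ : ℝ, 0 < μ ∧ ∀ m : ℕ, 1 ≤ m → m < n → μ ≤ ‖1 - ω ^ m‖ := by
    obtain ⟨m0, hm0, hmin⟩ := (Finset.Ico 1 n).exists_min_image (fun m => ‖1 - ω ^ m‖)
      ⟨1, Finset.mem_Ico.2 ⟨le_rfl, by omega⟩⟩
    have hm0' := Finset.mem_Ico.1 hm0
    refine ⟨‖1 - ω ^ m0‖, ?_, fun m h h' => hmin m (Finset.mem_Ico.2 ⟨h, h'⟩)⟩
    rw [norm_pos_iff, sub_ne_zero]
    exact (hω.pow_ne_one_of_pos_of_lt (by omega) hm0'.2).symm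
  -- the parameters
  set η : ℝ := μ / (4 * n) with hη
  have hη0 : 0 < η := by positivity
  obtain ⟨k, hk⟩ : ∃ k : ℕ, (2 * (2 + C)) * (2 / Real.sqrt (k + 1)) < η / 2 := by
    obtain ⟨k, hk⟩ := exists_nat_gt (((2 * (2 + C)) * 2 / (η / 2)) ^ 2)
    refine ⟨k, ?_⟩
    have hs : (2 * (2 + C)) * 2 / (η / 2) < Real.sqrt (k + 1) := by
      apply Real.lt_sqrt_of_sq_lt
      linarith
    have hs0 : 0 < Real.sqrt ((k : ℝ) + 1) := Real.sqrt_pos.2 (by positivity)
    rw [div_lt_iff₀ (by positivity)] at hs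
    rw [← mul_div_assoc, div_lt_iff₀ hs0]
    linarith
  -- the colouring
  obtain ⟨N, -, hNfin, hN⟩ := (isCompact_closedBall (0 : ℂ) 2).finite_cover_balls
    (e := η / 4) (by positivity)
  set z : (Fin (k + 1) → ℕ) → H := vec e ω k with hz
  set f : (Fin (k + 1) → ℕ) → Finset ℂ := fun a =>
    (r (poly n ω (z a))).image (fun y => inner ℂ (z a) y) with hf
  have : Finite N := hNfin
  obtain ⟨a, ha, hcol⟩ := shift_colour k (Set N)
    (fun a => {p | ∃ x ∈ f a, dist x (p : ℂ) < η / 4})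
  set b : Fin (k + 1) → ℕ := fun i => a i.castSucc with hb
  set c : Fin (k + 1) → ℕ := fun i => a i.succ with hc
  have hbn : ‖z b‖ = 1 := vec_norm e he ω hω1 k b
    (ha.injective.comp (Fin.castSucc_injective _))
  have hcn : ‖z c‖ = 1 := vec_norm e he ω hω1 k c
    (ha.injective.comp (Fin.succ_injective _))
  -- points of the retracted polygon are near the polygon
  have hnear : ∀ v : H, ‖v‖ = 1 → ∀ y ∈ r (poly n ω v), ∃ j : ℕ, ‖y - ω ^ j • v‖ < 1 / 2 := by
    intro v hv y hy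
    have hp := poly_nonempty hn0 ω v
    have hp' := poly'_nonempty n ω v
    have hpc := poly_card n ω v
    have hpc' := poly'_card hn ω v
    have hpp := poly_poly' hn ω v hv
    have hr := h3 _ _ hp hpc hp' (hpc'.trans (by omega))
    rw [h2 _ hp' hpc'] at hr
    have htri : hausdorffDist ((r (poly n ω v) : Finset H) : Set H) (poly n ω v : Set H) ≤
        hausdorffDist ((r (poly n ω v) : Finset H) : Set H) (poly' n ω v : Set H) +
        hausdorffDist (poly' n ω v : Set H) (poly n ω v : Set H) :=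
      hausdorffDist_triangle (finset_hd_ne_top (h1 _ hp hpc).1 hp')
    rw [hausdorffDist_comm (s := (poly' n ω v : Set H))] at htri
    obtain ⟨x, hx, hxd⟩ := exists_dist_le (h1 _ hp hpc).1 hp hy
    obtain ⟨j, rfl⟩ := (mem_poly hω hn0 v x).1 hx
    refine ⟨j, ?_⟩
    rw [← dist_eq_norm]
    refine lt_of_le_of_lt (hxd.trans htri) (lt_of_le_of_lt ?_ hCn)
    have : C * hausdorffDist (poly n ω v : Set H) (poly' n ω v : Set H) ≤
        C * (‖1 - ω‖ / 2) := mul_le_mul_of_nonneg_left hpp hC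
    nlinarith
  have hnormy : ∀ v : H, ‖v‖ = 1 → ∀ y ∈ r (poly n ω v), ‖y‖ ≤ 2 := by
    intro v hv y hy
    obtain ⟨j, hj⟩ := hnear v hv y hy
    have h4 : y = ω ^ j • v + (y - ω ^ j • v) := by abel
    rw [h4]
    refine (norm_add_le _ _).trans ?_
    rw [norm_smul, norm_pow, hω1, one_pow, one_mul, hv]
    linarith
  have hinn : ∀ v : H, ‖v‖ = 1 → ∀ y ∈ r (poly n ω v), 1 / 2 ≤ ‖inner ℂ v y‖ := by
    intro v hv y hy
    obtain ⟨j, hj⟩ := hnear v hv y hy
    have h4 : inner ℂ v y = ω ^ j + inner ℂ v (y - ω ^ j • v) := by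
      rw [inner_sub_right, inner_smul_right, inner_self_eq_norm_sq_to_K, hv]
      simp
    have h5 : ‖inner ℂ v (y - ω ^ j • v)‖ ≤ 1 / 2 := by
      refine (norm_inner_le_norm _ _).trans ?_
      rw [hv, one_mul]
      exact hj.le
    have h6 : ‖ω ^ j‖ ≤ ‖inner ℂ v y‖ + ‖inner ℂ v (y - ω ^ j • v)‖ := by
      have h7 : ω ^ j = inner ℂ v y - inner ℂ v (y - ω ^ j • v) := by
        linear_combination -h4
      exact (congrArg norm h7).le.trans (norm_sub_le _ _)
    rw [norm_pow, hω1, one_pow] at h6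
    linarith
  -- near invariance
  have hinv : ∀ x ∈ f b, ∃ x' ∈ f b, ‖x - ω * x'‖ ≤ η := by
    intro x hx
    obtain ⟨y, hy, rfl⟩ := Finset.mem_image.1 hx
    have hball : inner ℂ (z b) y ∈ closedBall (0 : ℂ) 2 := by
      rw [mem_closedBall_zero_iff]
      refine (norm_inner_le_norm (𝕜 := ℂ) (z b) y).trans ?_
      rw [hbn, one_mul]
      exact hnormy _ hbn y hy
    obtain ⟨p, hpN, hp⟩ := Set.mem_iUnion₂.1 (hN hball)
    have hmem : (⟨p, hpN⟩ : N) ∈ {p : N | ∃ x ∈ f b, dist x (p : ℂ) < η / 4} :=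
      ⟨inner ℂ (z b) y, hx, hp⟩
    have hmem' : (⟨p, hpN⟩ : N) ∈ {p : N | ∃ x ∈ f c, dist x (p : ℂ) < η / 4} := by
      rw [← hcol]; exact hmem
    obtain ⟨x', hx', hxp'⟩ := hmem'
    obtain ⟨y', hy', rfl⟩ := Finset.mem_image.1 hx'
    -- compare `z c` with the rotated `z b`
    have hω' : ω ^ (n - 1) * ω = 1 := by
      rw [← pow_succ, Nat.sub_add_cancel (by omega), hω.pow_eq_one]
    have hsh : ‖z c - ω ^ (n - 1) • z b‖ ≤ 2 / Real.sqrt (k + 1) :=
      vec_shift e he ω (ω ^ (n - 1)) hω1 hω' k a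
    have hP : hausdorffDist ((r (poly n ω (z c)) : Finset H) : Set H)
        ((r (poly n ω (z b)) : Finset H) : Set H) ≤ C * (2 / Real.sqrt (k + 1)) := by
      rw [← poly_rotate hω hn0 (z b)]
      refine (h3 _ _ (poly_nonempty hn0 _ _) (poly_card _ _ _) (poly_nonempty hn0 _ _)
        (poly_card _ _ _)).trans ?_
      exact mul_le_mul_of_nonneg_left ((poly_hausdorff hω1 _ _).trans hsh) hC
    obtain ⟨y'', hy'', hyd⟩ := exists_dist_le
      (h1 _ (poly_nonempty hn0 ω (z c)) (poly_card _ _ _)).1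
      (h1 _ (poly_nonempty hn0 ω (z b)) (poly_card _ _ _)).1 hy'
    have hyd' := hyd.trans hP
    refine ⟨inner ℂ (z b) y'', Finset.mem_image_of_mem _ hy'', ?_⟩
    have hrot : ω * inner ℂ (z b) y'' = inner ℂ (ω ^ (n - 1) • z b) y'' := by
      rw [inner_smul_left]
      congr 1
      have h7 : (starRingEnd ℂ) (ω ^ (n - 1)) * ω ^ (n - 1) = 1 := by
        rw [← Complex.normSq_eq_conj_mul_self, Complex.normSq_eq_norm_sq, norm_pow, hω1]
        simp
      have h8 : ω ^ (n - 1) ≠ 0 := pow_ne_zero _ (hω.ne_zero hn0.ne')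
      apply mul_right_cancel₀ h8
      rw [h7, mul_comm, hω']
    rw [hrot]
    have hd1 : ‖inner ℂ (z b) y - inner ℂ (z c) y'‖ ≤ η / 2 := by
      rw [← dist_eq_norm]
      have h9 := dist_triangle_right (inner ℂ (z b) y) (inner ℂ (z c) y') p
      have h10 : dist (inner ℂ (z b) y) p < η / 4 := hp
      have h11 : dist (inner ℂ (z c) y') p < η / 4 := hxp'
      linarith
    have hd2 : ‖inner ℂ (z c) y' - inner ℂ (ω ^ (n - 1) • z b) y''‖ ≤ η / 2 := by
      have h12 : inner ℂ (z c) y' - inner ℂ (ω ^ (n - 1) • z b) y'' =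
          inner ℂ (z c - ω ^ (n - 1) • z b) y' + inner ℂ (ω ^ (n - 1) • z b) (y' - y'') := by
        rw [inner_sub_left, inner_sub_right]; ring
      rw [h12]
      refine (norm_add_le _ _).trans ?_
      have h13 : ‖inner ℂ (z c - ω ^ (n - 1) • z b) y'‖ ≤ (2 / Real.sqrt (k + 1)) * 2 :=
        (norm_inner_le_norm _ _).trans (mul_le_mul hsh (hnormy _ hcn y' hy') (norm_nonneg _)
          (by positivity))
      have h14 : ‖inner ℂ (ω ^ (n - 1) • z b) (y' - y'')‖ ≤ C * (2 / Real.sqrt (k + 1)) := by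
        refine (norm_inner_le_norm _ _).trans ?_
        rw [norm_smul, norm_pow, hω1, one_pow, one_mul, hbn, one_mul, ← dist_eq_norm]
        exact hyd'
      have h15 : 0 ≤ 2 / Real.sqrt ((k : ℝ) + 1) := by positivity
      nlinarith
    have h16 : inner ℂ (z b) y - inner ℂ (ω ^ (n - 1) • z b) y'' =
        (inner ℂ (z b) y - inner ℂ (z c) y') +
        (inner ℂ (z c) y' - inner ℂ (ω ^ (n - 1) • z b) y'') := by ring
    rw [h16]
    refine (norm_add_le _ _).trans ?_
    linarith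
  have hp := poly_nonempty hn0 ω (z b)
  have hpc := poly_card n ω (z b)
  refine no_almost_invariant n ω hω1 (f b) ((h1 _ hp hpc).1.image _) ?_ μ η hη0.le hμ ?_ ?_ hinv
  · have := (Finset.card_image_le (s := r (poly n ω (z b)))
      (f := fun y => inner ℂ (z b) y)).trans (h1 _ hp hpc).2
    exact lt_of_le_of_lt this (by omega)
  · rw [hη]
    have : (n : ℝ) * (μ / (4 * n)) = μ / 4 := by field_simp
    rw [this]
    linarith
  · intro x hx
    obtain ⟨y, hy, rfl⟩ := Finset.mem_image.1 hx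
    exact hinn _ hbn y hy

end Pool.Agent.NH83
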