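import Pool.Agent.NH83.Shift

set_option autoImplicit false

open Metric Complex

namespace Pool.Agent.NH83

section fin

variable {H : Type} [PseudoMetricSpace H]

theorem finset_hd_ne_top {s t : Finset H} (hs : s.Nonempty) (ht : t.Nonempty) :
    Metric.hausdorffEDist (s : Set H) (t : Set H) ≠ ⊤ :=
  Metric.hausdorffEDist_ne_top_of_nonempty_of_bounded hs ht s.finite_toSet.isBounded
    t.finite_toSet.isBounded

theorem exists_dist_le {s t : Finset H} (hs : s.Nonempty) (ht : t.Nonempty) {x : H}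
    (hx : x ∈ s) : ∃ y ∈ t, dist x y ≤ hausdorffDist (s : Set H) (t : Set H) := by
  obtain ⟨y, hy, hmin⟩ := t.exists_min_image (fun y => dist x y) ht
  refine ⟨y, hy, le_of_forall_pos_lt_add fun ε hε => ?_⟩
  obtain ⟨y', hy', hlt⟩ := Metric.exists_dist_lt_of_hausdorffDist_lt (s := (s : Set H))
    (t := (t : Set H)) (r := hausdorffDist (s : Set H) (t : Set H) + ε) (by exact_mod_cast hx)
    (by linarith) (finset_hd_ne_top hs ht)
  exact lt_of_le_of_lt (hmin y' (by exact_mod_cast hy')) hlt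

end fin

variable {H : Type} [NormedAddCommGroup H] [InnerProductSpace ℂ H]

open Classical in
/-- the regular polygon with centre `0` and vertex `z` in the complex line of `z` -/
noncomputable def poly (n : ℕ) (ω : ℂ) (z : H) : Finset H :=
  (Finset.range n).image (fun k => ω ^ k • z)

theorem poly_nonempty {n : ℕ} (hn : 0 < n) (ω : ℂ) (z : H) : (poly n ω z).Nonempty := by
  classical
  exact (Finset.nonempty_range_iff.2 hn.ne').image _

theorem poly_card (n : ℕ) (ω : ℂ) (z : H) : (poly n ω z).card ≤ n := by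
  classical
  exact (Finset.card_image_le).trans (by simp)

theorem mem_poly {n : ℕ} {ω : ℂ} (hω : IsPrimitiveRoot ω n) (hn : 0 < n) (z y : H) :
    y ∈ poly n ω z ↔ ∃ k : ℕ, y = ω ^ k • z := by
  classical
  constructor
  · intro h
    obtain ⟨k, -, hk⟩ := Finset.mem_image.1 h
    exact ⟨k, hk.symm⟩
  · rintro ⟨k, rfl⟩
    refine Finset.mem_image.2 ⟨k % n, Finset.mem_range.2 (Nat.mod_lt _ hn), ?_⟩
    rw [← pow_mod_orderOf ω k, ← hω.eq_orderOf]

theorem poly_rotate {n : ℕ} {ω : ℂ} (hω : IsPrimitiveRoot ω n) (hn : 0 < n) (z : H) :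
    poly n ω (ω ^ (n - 1) • z) = poly n ω z := by
  ext y
  rw [mem_poly hω hn, mem_poly hω hn]
  constructor
  · rintro ⟨k, rfl⟩
    exact ⟨k + (n - 1), by rw [smul_smul, ← pow_add]⟩
  · rintro ⟨k, rfl⟩
    refine ⟨k + 1, ?_⟩
    rw [smul_smul, ← pow_add, show k + 1 + (n - 1) = k + n by omega, pow_add, hω.pow_eq_one,
      mul_one]

theorem poly_hausdorff {n : ℕ} {ω : ℂ} (hω1 : ‖ω‖ = 1) (z z' : H) :
    hausdorffDist (poly n ω z : Set H) (poly n ω z' : Set H) ≤ ‖z - z'‖ := by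
  classical
  have key : ∀ z z' : H, ∀ x ∈ (poly n ω z : Set H), ∃ y ∈ (poly n ω z' : Set H),
      dist x y ≤ ‖z - z'‖ := by
    intro z z' x hx
    obtain ⟨k, hk, rfl⟩ := Finset.mem_image.1 (Finset.mem_coe.1 hx)
    refine ⟨ω ^ k • z', Finset.mem_coe.2 (Finset.mem_image.2 ⟨k, hk, rfl⟩), ?_⟩
    rw [dist_eq_norm, ← smul_sub, norm_smul, norm_pow, hω1, one_pow, one_mul]
  refine hausdorffDist_le_of_mem_dist (norm_nonneg _) (key z z') ?_
  intro x hx
  obtain ⟨y, hy, h⟩ := key z' z x hx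
  exact ⟨y, hy, by rwa [norm_sub_rev]⟩

open Classical in
/-- the polygon with the first two vertices replaced by their midpoint -/
noncomputable def poly' (n : ℕ) (ω : ℂ) (z : H) : Finset H :=
  insert (((1 + ω) / 2 : ℂ) • z) ((Finset.Ico 2 n).image (fun k => ω ^ k • z))

theorem poly'_card {n : ℕ} (hn : 2 ≤ n) (ω : ℂ) (z : H) : (poly' n ω z).card ≤ n - 1 := by
  classical
  refine (Finset.card_insert_le _ _).trans ?_
  have h := Finset.card_image_le (s := Finset.Ico 2 n) (f := fun k => ω ^ k • z)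
  rw [Nat.card_Ico] at h
  omega

theorem poly'_nonempty (n : ℕ) (ω : ℂ) (z : H) : (poly' n ω z).Nonempty := by
  classical
  exact Finset.insert_nonempty _ _

theorem poly_poly' {n : ℕ} (hn : 2 ≤ n) (ω : ℂ) (z : H) (hz : ‖z‖ = 1) :
    hausdorffDist (poly n ω z : Set H) (poly' n ω z : Set H) ≤ ‖1 - ω‖ / 2 := by
  classical
  have e0 : dist (z : H) (((1 + ω) / 2 : ℂ) • z) ≤ ‖1 - ω‖ / 2 := by
    have h : z - ((1 + ω) / 2 : ℂ) • z = ((1 - ω) / 2 : ℂ) • z := by
      have : z = (1 : ℂ) • z := (one_smul _ _).symm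
      nth_rewrite 1 [this]
      rw [← sub_smul]
      congr 1
      ring
    rw [dist_eq_norm, h, norm_smul, hz, mul_one, norm_div]
    simp
  have e1 : dist (ω • z : H) (((1 + ω) / 2 : ℂ) • z) ≤ ‖1 - ω‖ / 2 := by
    have h : ω • z - ((1 + ω) / 2 : ℂ) • z = (-((1 - ω) / 2) : ℂ) • z := by
      rw [← sub_smul]
      congr 1
      ring
    rw [dist_eq_norm, h, norm_smul, hz, mul_one, norm_neg, norm_div]
    simp
  refine hausdorffDist_le_of_mem_dist (by positivity) ?_ ?_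
  · intro x hx
    obtain ⟨k, hk, rfl⟩ := Finset.mem_image.1 (Finset.mem_coe.1 hx)
    have hk' := Finset.mem_range.1 hk
    rcases Nat.lt_or_ge k 2 with h | h
    · refine ⟨((1 + ω) / 2 : ℂ) • z, Finset.mem_coe.2 (Finset.mem_insert_self _ _), ?_⟩
      interval_cases k
      · simpa using e0
      · simpa using e1
    · refine ⟨ω ^ k • z, Finset.mem_coe.2 (Finset.mem_insert_of_mem
        (Finset.mem_image.2 ⟨k, Finset.mem_Ico.2 ⟨h, hk'⟩, rfl⟩)), ?_⟩
      rw [dist_self]; positivity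
  · intro x hx
    rcases Finset.mem_insert.1 (Finset.mem_coe.1 hx) with rfl | hx
    · refine ⟨z, Finset.mem_coe.2 (Finset.mem_image.2 ⟨0, Finset.mem_range.2 (by omega),
        by simp⟩), ?_⟩
      rw [dist_comm]; exact e0
    · obtain ⟨k, hk, rfl⟩ := Finset.mem_image.1 hx
      have hk' := Finset.mem_Ico.1 hk
      refine ⟨ω ^ k • z, Finset.mem_coe.2 (Finset.mem_image.2
        ⟨k, Finset.mem_range.2 hk'.2, rfl⟩), ?_⟩
      rw [dist_self]; positivity

/-- The unit vector `(k+1)^(-1/2) ∑ ω^j e_{a j}`. -/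
noncomputable def vec (e : ℕ → H) (ω : ℂ) (k : ℕ) (a : Fin (k + 1) → ℕ) : H :=
  ∑ j : Fin (k + 1), (((Real.sqrt (k + 1))⁻¹ : ℝ) * ω ^ (j : ℕ) : ℂ) • e (a j)

theorem vec_norm (e : ℕ → H) (he : Orthonormal ℂ e) (ω : ℂ) (hω : ‖ω‖ = 1) (k : ℕ)
    (a : Fin (k + 1) → ℕ) (ha : Function.Injective a) : ‖vec e ω k a‖ = 1 := by
  have h1 := (he.comp a ha).inner_sum
    (fun j : Fin (k + 1) => (((Real.sqrt (k + 1))⁻¹ : ℝ) * ω ^ (j : ℕ) : ℂ))
    (fun j : Fin (k + 1) => (((Real.sqrt (k + 1))⁻¹ : ℝ) * ω ^ (j : ℕ) : ℂ)) Finset.univ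
  have h2 : inner ℂ (vec e ω k a) (vec e ω k a) = (1 : ℂ) := by
    rw [show vec e ω k a = ∑ j : Fin (k + 1), (((Real.sqrt (k + 1))⁻¹ : ℝ) * ω ^ (j : ℕ) : ℂ) •
      (e ∘ a) j from rfl, h1]
    have h3 : ∀ j : Fin (k + 1), (starRingEnd ℂ)
        (((Real.sqrt (k + 1))⁻¹ : ℝ) * ω ^ (j : ℕ) : ℂ) *
        (((Real.sqrt (k + 1))⁻¹ : ℝ) * ω ^ (j : ℕ) : ℂ) = (((k : ℝ) + 1)⁻¹ : ℝ) := by
      intro j
      rw [← Complex.normSq_eq_conj_mul_self, Complex.normSq_eq_norm_sq, norm_mul, norm_pow, hω,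
        one_pow, mul_one, Complex.norm_real, Real.norm_eq_abs, sq_abs, inv_pow,
        Real.sq_sqrt (by positivity)]
    rw [Finset.sum_congr rfl (fun j _ => h3 j), Finset.sum_const, Finset.card_univ,
      Fintype.card_fin, nsmul_eq_mul, ← Complex.ofReal_natCast, ← Complex.ofReal_mul]
    push_cast
    rw [mul_inv_cancel₀]
    have : ((k : ℝ) + 1) ≠ 0 := by positivity
    exact_mod_cast this
  have h4 : ‖vec e ω k a‖ ^ 2 = 1 := by
    have := inner_self_eq_norm_sq_to_K (𝕜 := ℂ) (vec e ω k a)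
    rw [h2] at this
    have h5 : ((‖vec e ω k a‖ ^ 2 : ℝ) : ℂ) = ((1 : ℝ) : ℂ) := by
      push_cast
      exact this.symm
    exact_mod_cast h5
  have h6 : 0 ≤ ‖vec e ω k a‖ := norm_nonneg _
  nlinarith

/-- Shifting the support of the vector is almost the same as a rotation. -/
theorem vec_shift (e : ℕ → H) (he : Orthonormal ℂ e) (ω ω' : ℂ) (hω : ‖ω‖ = 1)
    (hω' : ω' * ω = 1) (k : ℕ) (a : Fin (k + 2) → ℕ) :
    ‖vec e ω k (fun i => a i.succ) - ω' • vec e ω k (fun i => a i.castSucc)‖ ≤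
      2 / Real.sqrt (k + 1) := by
  have hs : 0 < Real.sqrt (k + 1) := Real.sqrt_pos.2 (by positivity)
  have h1 : vec e ω k (fun i => a i.succ) - ω' • vec e ω k (fun i => a i.castSucc) =
      (((Real.sqrt (k + 1))⁻¹ : ℝ) * ω ^ k : ℂ) • e (a (Fin.last (k + 1))) -
      (((Real.sqrt (k + 1))⁻¹ : ℝ) * ω' : ℂ) • e (a 0) := by
    have e1 : vec e ω k (fun i => a i.succ) =
        ∑ j : Fin k, (((Real.sqrt (k + 1))⁻¹ : ℝ) * ω ^ (j : ℕ) : ℂ) •
          e (a (Fin.castSucc j).succ) +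
        (((Real.sqrt (k + 1))⁻¹ : ℝ) * ω ^ k : ℂ) • e (a (Fin.last (k + 1))) := by
      rw [vec, Fin.sum_univ_castSucc]
      simp
    have e2 : ω' • vec e ω k (fun i => a i.castSucc) =
        (((Real.sqrt (k + 1))⁻¹ : ℝ) * ω' : ℂ) • e (a 0) +
        ∑ j : Fin k, (((Real.sqrt (k + 1))⁻¹ : ℝ) * ω ^ (j : ℕ) : ℂ) •
          e (a (Fin.castSucc j).succ) := by
      rw [vec, Fin.sum_univ_succ, smul_add, Finset.smul_sum]
      congr 1
      · simp [smul_smul, mul_comm]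
      · refine Finset.sum_congr rfl fun j _ => ?_
        rw [smul_smul, Fin.val_succ, Fin.succ_castSucc]
        congr 1
        rw [pow_succ]
        linear_combination (((Real.sqrt (k + 1))⁻¹ : ℝ) * ω ^ (j : ℕ) : ℂ) * hω'
    rw [e1, e2]
    abel
  rw [h1]
  refine (norm_sub_le _ _).trans ?_
  have hω'n : ‖ω'‖ = 1 := by
    have := congrArg norm hω'
    rw [norm_mul, hω, mul_one, norm_one] at this
    exact this
  rw [norm_smul, norm_smul, he.1, he.1, norm_mul, norm_mul, norm_pow, hω, hω'n, one_pow,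
    Complex.norm_real, Real.norm_of_nonneg (by positivity)]
  rw [div_eq_mul_inv]
  linarith

end Pool.Agent.NH83
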