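import Mathlib

set_option autoImplicit false

namespace Pool.Agent.NH83

/-- In every colouring of the `(k+1)`-element sets of natural numbers with finitely many colours
there are two sets `{a_0, …, a_k}` and `{a_1, …, a_{k+1}}` of the same colour. -/
theorem shift_colour (k : ℕ) : ∀ (α : Type) [Finite α] (χ : (Fin (k + 1) → ℕ) → α),
    ∃ a : Fin (k + 2) → ℕ, StrictMono a ∧
      χ (fun i => a i.castSucc) = χ (fun i => a i.succ) := by
  induction k with
  | zero =>
    intro α _ χ
    obtain ⟨x, y, hxy, h⟩ := Finite.exists_ne_map_eq_of_infinite (fun m : ℕ => χ (fun _ => m))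
    have key : ∀ x y : ℕ, x < y → χ (fun _ => x) = χ (fun _ => y) →
        ∃ a : Fin (0 + 2) → ℕ, StrictMono a ∧
          χ (fun i => a i.castSucc) = χ (fun i => a i.succ) := by
      intro x y hlt h
      refine ⟨![x, y], ?_, ?_⟩
      · intro i j hij
        fin_cases i <;> fin_cases j <;> simp_all
      · have e1 : (fun i : Fin (0 + 1) => (![x, y] : Fin 2 → ℕ) i.castSucc) = fun _ => x := by
          funext i; fin_cases i; rfl
        have e2 : (fun i : Fin (0 + 1) => (![x, y] : Fin 2 → ℕ) i.succ) = fun _ => y := by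
          funext i; fin_cases i; rfl
        exact (congrArg χ e1).trans (h.trans (congrArg χ e2).symm)
    rcases lt_or_gt_of_ne hxy with hlt | hlt
    · exact key x y hlt h
    · exact key y x hlt h.symm
  | succ k ih =>
    intro α _ χ
    obtain ⟨a, ha, h⟩ := ih (Set α) (fun v =>
      {c | ∃ b : ℕ, (∀ i, v i < b) ∧ χ (Fin.snoc (α := fun _ => ℕ) v b) = c})
    have hmem : χ a ∈ {c | ∃ b : ℕ, (∀ i, (fun i : Fin (k + 1) => a i.castSucc) i < b) ∧
        χ (Fin.snoc (α := fun _ => ℕ) (fun i : Fin (k + 1) => a i.castSucc) b) = c} := by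
      refine ⟨a (Fin.last (k + 1)), fun i => ha (Fin.castSucc_lt_last i), ?_⟩
      congr 1
      funext i
      refine Fin.lastCases ?_ (fun j => ?_) i
      · simp
      · simp
    have hmem2 := h ▸ hmem
    obtain ⟨b, hb, hc⟩ := hmem2
    refine ⟨Fin.snoc (α := fun _ => ℕ) a b, ?_, ?_⟩
    · have hlast : ∀ i : Fin (k + 2), a i < b := by
        intro i
        have h1 : a i ≤ a (Fin.last (k + 1)) := ha.monotone (Fin.le_last i)
        have h2 : a (Fin.last (k + 1)) < b := hb (Fin.last k)
        exact lt_of_le_of_lt h1 h2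
      intro i j hij
      induction i using Fin.lastCases with
      | last => exact absurd hij (not_lt.2 (Fin.le_last j))
      | cast i =>
        induction j using Fin.lastCases with
        | last => simpa using hlast i
        | cast j =>
          simp only [Fin.snoc_castSucc]
          exact ha (by simpa using hij)
    · have e1 : (fun i : Fin (k + 1 + 1) =>
          (Fin.snoc (α := fun _ => ℕ) a b : Fin (k + 1 + 2) → ℕ) i.castSucc) = a := by
        funext i; simp
      have e2 : (fun i : Fin (k + 1 + 1) =>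
          (Fin.snoc (α := fun _ => ℕ) a b : Fin (k + 1 + 2) → ℕ) i.succ) =
          Fin.snoc (α := fun _ => ℕ) (fun i : Fin (k + 1) => a i.succ) b := by
        funext i
        refine Fin.lastCases ?_ (fun j => ?_) i
        · simp
        · simp only [Fin.snoc_castSucc]
          rw [Fin.succ_castSucc, Fin.snoc_castSucc]
      exact (congrArg χ e1).trans (hc.symm.trans (congrArg χ e2).symm)

/-- A nonempty finite set of complex numbers with fewer than `n` elements, away from `0`, is not
almost invariant under the multiplication by `ω` if the powers `ω, …, ω^(n-1)` are away from `1`. -/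
theorem no_almost_invariant (n : ℕ) (ω : ℂ) (hω : ‖ω‖ = 1) (F : Finset ℂ) (hne : F.Nonempty)
    (hcard : F.card < n) (μ η : ℝ) (hη : 0 ≤ η) (hμ : ∀ m : ℕ, 1 ≤ m → m < n → μ ≤ ‖1 - ω ^ m‖)
    (hsmall : n * η < μ / 2) (hF : ∀ x ∈ F, 1 / 2 ≤ ‖x‖)
    (hinv : ∀ x ∈ F, ∃ y ∈ F, ‖x - ω * y‖ ≤ η) : False := by
  classical
  choose! g hgF hg using hinv
  obtain ⟨x0, hx0⟩ := hne
  have hmem : ∀ j : ℕ, g^[j] x0 ∈ F := by
    intro j
    induction j with
    | zero => simpa using hx0
    | succ j ih => rw [Function.iterate_succ_apply']; exact hgF _ ih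
  have hchain : ∀ i m : ℕ, ‖g^[i] x0 - ω ^ m * g^[i + m] x0‖ ≤ m * η := by
    intro i m
    induction m with
    | zero => simp
    | succ m ih =>
      have h1 : g^[i] x0 - ω ^ (m + 1) * g^[i + (m + 1)] x0 =
          (g^[i] x0 - ω ^ m * g^[i + m] x0) + ω ^ m * (g^[i + m] x0 - ω * g (g^[i + m] x0)) := by
        rw [← add_assoc, Function.iterate_succ_apply']
        ring
      rw [h1]
      refine (norm_add_le _ _).trans ?_
      have h2 : ‖ω ^ m * (g^[i + m] x0 - ω * g (g^[i + m] x0))‖ ≤ η := by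
        rw [norm_mul, norm_pow, hω, one_pow, one_mul]
        exact hg _ (hmem _)
      push_cast
      linarith
  obtain ⟨i, j, hij, heq⟩ : ∃ i j : Fin n, i ≠ j ∧ g^[(i : ℕ)] x0 = g^[(j : ℕ)] x0 := by
    have := Finset.exists_ne_map_eq_of_card_lt_of_maps_to (s := (Finset.univ : Finset (Fin n)))
      (t := F) (f := fun i : Fin n => g^[(i : ℕ)] x0) (by simpa using hcard)
      (fun i _ => hmem _)
    obtain ⟨i, -, j, -, h1, h2⟩ := this
    exact ⟨i, j, h1, h2⟩
  have key : ∀ i j : Fin n, i < j → g^[(i : ℕ)] x0 = g^[(j : ℕ)] x0 → False := by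
    intro i j hlt heq
    have hlt' : (i : ℕ) < j := hlt
    have h1 := hchain i (j - i)
    rw [Nat.add_sub_cancel' hlt'.le, ← heq] at h1
    have h2 : g^[(i : ℕ)] x0 - ω ^ ((j : ℕ) - i) * g^[(i : ℕ)] x0 =
        (1 - ω ^ ((j : ℕ) - i)) * g^[(i : ℕ)] x0 := by ring
    rw [h2, norm_mul] at h1
    have h3 := hμ ((j : ℕ) - i) (by omega) (by have := j.2; omega)
    have h4 := hF _ (hmem i)
    have h5 : (((j : ℕ) - (i : ℕ) : ℕ) : ℝ) ≤ n := by
      have := j.2
      exact_mod_cast (by omega : (j : ℕ) - i ≤ n)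
    have h6 : (((j : ℕ) - (i : ℕ) : ℕ) : ℝ) * η ≤ n * η := mul_le_mul_of_nonneg_right h5 hη
    have h7 : 0 ≤ ‖(1 : ℂ) - ω ^ ((j : ℕ) - i)‖ := norm_nonneg _
    nlinarith
  rcases lt_or_gt_of_ne hij with h | h
  · exact key i j h heq
  · exact key j i h heq.symm

end Pool.Agent.NH83
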